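import Pool.Agent.Tysz.CaseC
open Finset

namespace Pool.Agent.Results.MP_e336e1_al.MinNormComplex

/-- the equations x_i = 1, x_i + x_j = x_k and x_i * x_j = x_k in the variables x_1, ..., x_n -/
inductive Eqn (n : ℕ) : Type
  | one (i : Fin n) : Eqn n
  | add (i j k : Fin n) : Eqn n
  | mul (i j k : Fin n) : Eqn n

/-- the equation holds at the complex point x -/
def Holds {n : ℕ} (x : Fin n → ℂ) : Eqn n → Prop
  | Eqn.one i => x i = 1
  | Eqn.add i j k => x i + x j = x k
  | Eqn.mul i j k => x i * x j = x k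

/-- x is a complex solution of the system T -/
def IsSol {n : ℕ} (T : Set (Eqn n)) (x : Fin n → ℂ) : Prop := ∀ e ∈ T, Holds x e

/-- the Euclidean norm -/
noncomputable def euclid {n : ℕ} (x : Fin n → ℂ) : ℝ := Real.sqrt (∑ i, ‖x i‖ ^ 2)

/-- x is a complex solution of T of minimal Euclidean norm -/
def IsMinSol {n : ℕ} (T : Set (Eqn n)) (x : Fin n → ℂ) : Prop :=
  IsSol T x ∧ ∀ y : Fin n → ℂ, IsSol T y → euclid x ≤ euclid y

/-- value of an optional variable -/
def ov {σ : Type} (Q : σ → ℂ) : Option σ → ℂ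
  | none => 0
  | some s => Q s

theorem aeval_oX {σ : Type} [Fintype σ] [DecidableEq σ] (Q : σ → ℂ) (a : Option σ) :
    MvPolynomial.aeval Q (Tysz.toA (Tysz.oX a)) = ov Q a := by
  cases a with
  | none => simp [Tysz.oX, ov]
  | some s =>
    change MvPolynomial.aeval Q (Tysz.toA (MvPolynomial.X s)) = Q s
    unfold Tysz.toA
    rw [MvPolynomial.map_X, MvPolynomial.aeval_X]

theorem aeval_lf {σ : Type} [Fintype σ] [DecidableEq σ] (Q : σ → ℂ) (l : Option σ × Option σ × Option σ) :
    MvPolynomial.aeval Q (Tysz.lf l) = ov Q l.1 + ov Q l.2.1 - ov Q l.2.2 := by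
  unfold Tysz.lf Tysz.lin
  rw [map_sub, map_add, map_sub, map_add, aeval_oX, aeval_oX, aeval_oX]

theorem sum_sq_le {n : ℕ} {x y : Fin n → ℂ} (h : euclid x ≤ euclid y) :
    ∑ i, ‖x i‖ ^ 2 ≤ ∑ i, ‖y i‖ ^ 2 := by
  unfold euclid at h
  exact (Real.sqrt_le_sqrt_iff (Finset.sum_nonneg fun i _ => by positivity)).mp h

theorem bound_one {n : ℕ} {T : Set (Eqn n)} {x : Fin n → ℂ} (hx : IsMinSol T x) {i0 : Fin n}
    (h0 : Eqn.one i0 ∈ T) (i : Fin n) : ‖x i‖ ≤ (2:ℝ) ^ ((2:ℝ) ^ ((n:ℝ) - 2)) := by
  classical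
  have hx0 : x i0 = 1 := hx.1 _ h0
  have hne0 : x i0 ≠ 0 := by rw [hx0]; exact one_ne_zero
  let o : Fin n → Option {i : Fin n // x i ≠ 0} := fun i => if h : x i ≠ 0 then some ⟨i, h⟩ else none
  have ho1 : ∀ {i} (h : x i ≠ 0), o i = some ⟨i, h⟩ := fun h => dif_pos h
  have ho0 : ∀ {i}, x i = 0 → o i = none := fun h => dif_neg (not_not.mpr h)
  let s0 : {i : Fin n // x i ≠ 0} := ⟨i0, hne0⟩
  let P : {i : Fin n // x i ≠ 0} → ℂ := fun s => x s.1
  have hov : ∀ i, ov P (o i) = x i := by
    intro i
    by_cases h : x i ≠ 0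
    · rw [ho1 h]; rfl
    · rw [ho0 (not_not.mp h), not_not.mp h]; rfl
  let S : Tysz.Sys {i : Fin n // x i ≠ 0} s0 :=
    { M := {t | Eqn.mul t.1.1 t.2.1.1 t.2.2.1 ∈ T}
      L := {l | (∃ i j k, Eqn.add i j k ∈ T ∧ l = (o i, o j, o k)) ∨
        (∃ i, Eqn.one i ∈ T ∧ l = (o i, none, some s0))}
      P := P
      P0 := hx0
      Pne := fun s => s.2
      PM := fun t ht => hx.1 _ ht
      PL := by
        intro l hl
        rw [aeval_lf]
        rcases hl with ⟨i, j, k, hT, rfl⟩ | ⟨i, hT, rfl⟩
        · have h1 : x i + x j = x k := hx.1 _ hT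
          simp only [hov]
          rw [h1, sub_self]
        · have h1 : x i = 1 := hx.1 _ hT
          simp only [hov]
          rw [h1]
          change (1:ℂ) + 0 - x i0 = 0
          rw [hx0]; ring
      min := by
        intro Q hQ0 hQM hQL
        set y : Fin n → ℂ := fun i => ov Q (o i) with hy
        have hy1 : ∀ {i} (h : x i ≠ 0), y i = Q ⟨i, h⟩ := by
          intro i h; rw [hy]; simp only [ho1 h]; rfl
        have hy0 : ∀ {i}, x i = 0 → y i = 0 := by
          intro i h; rw [hy]; simp only [ho0 h]; rfl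
        have hsol : IsSol T y := by
          intro e he
          cases e with
          | one i =>
            have h1 := hQL (o i, none, some s0) (Or.inr ⟨i, he, rfl⟩)
            rw [aeval_lf] at h1
            have h2 : y i + 0 - Q s0 = 0 := h1
            rw [hQ0] at h2
            change y i = 1
            linear_combination h2
          | add i j k =>
            have h1 := hQL (o i, o j, o k) (Or.inl ⟨i, j, k, he, rfl⟩)
            rw [aeval_lf] at h1
            have h2 : y i + y j - y k = 0 := h1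
            change y i + y j = y k
            linear_combination h2
          | mul i j k =>
            have h1 : x i * x j = x k := hx.1 _ he
            change y i * y j = y k
            by_cases hi : x i = 0
            · rw [hi, zero_mul] at h1
              rw [hy0 hi, hy0 h1.symm, zero_mul]
            · by_cases hj : x j = 0
              · rw [hj, mul_zero] at h1
                rw [hy0 hj, hy0 h1.symm, mul_zero]
              · have hk : x k ≠ 0 := by rw [← h1]; exact mul_ne_zero hi hj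
                rw [hy1 hi, hy1 hj, hy1 hk]
                exact hQM (⟨i, hi⟩, ⟨j, hj⟩, ⟨k, hk⟩) he
        have h1 := sum_sq_le (hx.2 y hsol)
        have h2 : ∀ f : Fin n → ℝ, (∀ i, x i = 0 → f i = 0) →
            ∑ i, f i = ∑ s : {i : Fin n // x i ≠ 0}, f s.1 := by
          intro f hf
          have h3 := Fintype.sum_subtype_add_sum_subtype (fun i => x i ≠ 0) f
          rw [← h3]
          have h4 : ∑ s : {i : Fin n // ¬ x i ≠ 0}, f s.1 = 0 :=
            Finset.sum_eq_zero fun s _ => hf _ (not_not.mp s.2)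
          rw [h4, add_zero]
        rw [h2 (fun i => ‖x i‖ ^ 2) (fun i h => by simp [h]),
          h2 (fun i => ‖y i‖ ^ 2) (fun i h => by simp [hy0 h])] at h1
        refine h1.trans (le_of_eq ?_)
        refine Finset.sum_congr rfl fun s _ => ?_
        rw [hy1 s.2] }
  by_cases hi : x i = 0
  · rw [hi, norm_zero]; positivity
  · have h1 : ‖x i‖ ≤ 2 ^ ((2:ℝ) ^ ((Fintype.card {i : Fin n // x i ≠ 0} : ℝ) - 2)) := S.bound ⟨i, hi⟩
    refine h1.trans ?_
    have h2 : (Fintype.card {i : Fin n // x i ≠ 0} : ℝ) ≤ n := by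
      have h3 := Fintype.card_subtype_le (fun i : Fin n => x i ≠ 0)
      rw [Fintype.card_fin] at h3
      exact_mod_cast h3
    apply Real.rpow_le_rpow_of_exponent_le (by norm_num)
    apply Real.rpow_le_rpow_of_exponent_le (by norm_num)
    linarith

/-- Q1: every complex solution of minimal Euclidean norm of a system of equations x_i = 1,
x_i + x_j = x_k, x_i * x_j = x_k in n variables satisfies |x_i| <= 2^(2^(n-2)) for all i. -/
theorem result (n : ℕ) (_ : 1 ≤ n) (T : Set (Eqn n)) (x : Fin n → ℂ) (hx : IsMinSol T x) (i : Fin n) :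
    ‖x i‖ ≤ (2:ℝ) ^ ((2:ℝ) ^ ((n:ℝ) - 2)) := by
  by_cases h : ∃ i0, Eqn.one i0 ∈ T
  · obtain ⟨i0, h0⟩ := h
    exact bound_one hx h0 i
  · push Not at h
    have hsol : IsSol T (0 : Fin n → ℂ) := by
      intro e he
      cases e with
      | one i => exact absurd he (h i)
      | add i j k => change (0:ℂ) + 0 = 0; ring
      | mul i j k => change (0:ℂ) * 0 = 0; ring
    have h1 := sum_sq_le (hx.2 0 hsol)
    have h2 : ∑ i, ‖x i‖ ^ 2 = 0 := by
      refine le_antisymm ?_ (Finset.sum_nonneg fun i _ => by positivity)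
      simpa using h1
    have h3 := (Finset.sum_eq_zero_iff_of_nonneg (fun i _ => by positivity)).mp h2 i (Finset.mem_univ i)
    have h4 : ‖x i‖ = 0 := by simpa using h3
    rw [h4]; positivity

end Pool.Agent.Results.MP_e336e1_al.MinNormComplex
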